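import Pool.Agent.Y44.LC.ANNa
import Pool.Agent.Y18.LC.Stm

set_option autoImplicit false

namespace Pool.Agent.Y44.LC

/-- the abstract form -/
theorem ann_abs (p : ℕ) [hp : Fact p.Prime] (B : ℕ) (P S : Type) [CommGroup P] [Fintype P]
    [CommGroup S] [Finite S] (hP : IsPGroup p P) (hS : IsPGroup p S) (ρ : P →* Monoid.End S)
    (hB : Nat.card (fixS ρ) ≤ B) :
    ∃ x : P → ℤ, (∀ s, ∏ g, (ρ g s) ^ x g = 1) ∧ ∃ w ≤ B * B, ∑ g, x g = (p : ℤ) ^ w := by
  classical
  let _ : Module (MonoidAlgebra ℤ P) (Du S) := Module.compHom (Du S) (modRing ρ)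
  have hsm : ∀ (x : MonoidAlgebra ℤ P) (d : Du S), x • d = modRing ρ x d := fun _ _ => rfl
  set I : Ideal (MonoidAlgebra ℤ P) := RingHom.ker (aug P) with hI
  -- characters trivial on the fixed points are in `I D`
  have key1 : ∀ f : Du S, (∀ s ∈ fixS ρ, ch f s = 1) →
      f ∈ (I • ⊤ : Submodule (MonoidAlgebra ℤ P) (Du S)) := by
    intro f hf
    let Φ : Subgroup (S →* ℂˣ) :=
      { carrier := {φ | mk φ ∈ (I • ⊤ : Submodule (MonoidAlgebra ℤ P) (Du S))}
        mul_mem' := fun {a b} ha hb => by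
          have h0 : mk a + mk b ∈ (I • ⊤ : Submodule (MonoidAlgebra ℤ P) (Du S)) :=
            Submodule.add_mem _ ha hb
          exact h0
        one_mem' := by
          have h0 : (0 : Du S) ∈ (I • ⊤ : Submodule (MonoidAlgebra ℤ P) (Du S)) :=
            Submodule.zero_mem _
          exact h0
        inv_mem' := fun {a} ha => by
          have h0 : -mk a ∈ (I • ⊤ : Submodule (MonoidAlgebra ℤ P) (Du S)) :=
            Submodule.neg_mem _ ha
          exact h0 }
    have h1 : ch f ∈ Φ := by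
      apply dann
      intro s hs
      apply hf
      intro g
      apply sep
      intro φ
      have h2 : (MonoidAlgebra.single g (1 : ℤ) - MonoidAlgebra.single 1 1) • mk φ ∈
          (I • ⊤ : Submodule (MonoidAlgebra ℤ P) (Du S)) := by
        refine Submodule.smul_mem_smul ?_ Submodule.mem_top
        rw [hI, RingHom.mem_ker, map_sub, aug_single, aug_single, sub_self]
      have h3 := hs _ (show ch ((MonoidAlgebra.single g (1 : ℤ) - MonoidAlgebra.single 1 1) • mk φ)
        ∈ Φ from h2)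
      rw [hsm, map_sub] at h3
      have h4 : ch ((modRing ρ (MonoidAlgebra.single g (1 : ℤ)) -
          modRing ρ (MonoidAlgebra.single 1 1)) (mk φ)) s =
          ch (modRing ρ (MonoidAlgebra.single g (1 : ℤ)) (mk φ)) s /
            ch (modRing ρ (MonoidAlgebra.single 1 (1 : ℤ)) (mk φ)) s := rfl
      rw [h4, modRing_single, modRing_single, zpow_one, zpow_one, div_eq_one, map_one] at h3
      exact h3
    exact h1
  -- the order of the fixed subgroup
  obtain ⟨v, hv⟩ := (IsPGroup.iff_card (p := p) (G := fixS ρ)).1 (hS.to_subgroup _)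
  have hvB : v ≤ B := by
    rw [hv] at hB
    exact (Nat.lt_pow_self hp.out.one_lt).le.trans hB
  have hpow : ∀ s ∈ fixS ρ, s ^ p ^ v = 1 := by
    intro s hs
    have h1 : (⟨s, hs⟩ : fixS ρ) ^ Nat.card (fixS ρ) = 1 := pow_card_eq_one'
    rw [hv] at h1
    exact congrArg Subtype.val h1
  have key2 : ∀ f : Du S, ((p : MonoidAlgebra ℤ P) ^ v) • f ∈
      (I • ⊤ : Submodule (MonoidAlgebra ℤ P) (Du S)) := by
    intro f
    apply key1
    intro s hs
    have h1 : ((p : MonoidAlgebra ℤ P) ^ v) • f = (p ^ v) • f := by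
      rw [← Nat.cast_pow, Nat.cast_smul_eq_nsmul]
    have h2 : ch ((p ^ v) • f) s = (ch f s) ^ p ^ v := rfl
    rw [h1, h2, ← map_pow, hpow s hs, map_one]
  -- generators
  have hexp : NeZero (Monoid.exponent S) := ⟨Monoid.exponent_ne_zero_of_finite⟩
  have hexp2 : NeZero (Monoid.exponent (fixS ρ)) := ⟨Monoid.exponent_ne_zero_of_finite⟩
  have hsurj := MonoidHom.domRestrict_surjective (M := ℂ) (fixS ρ)
  choose σ hσ using hsurj
  have hfinD : Finite (fixS ρ →* ℂˣ) :=
    Finite.of_equiv _ (CommGroup.monoidHom_mulEquiv_of_hasEnoughRootsOfUnity (fixS ρ) ℂ).some.symm.toEquiv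
  have := Fintype.ofFinite (fixS ρ →* ℂˣ)
  let F : Finset (Du S) := Finset.univ.image (fun χ => mk (σ χ))
  have hFcard : F.card ≤ B := by
    refine Finset.card_image_le.trans ?_
    rw [Finset.card_univ, ← Nat.card_eq_fintype_card,
      CommGroup.card_monoidHom_of_hasEnoughRootsOfUnity]
    exact hB
  have hF : Submodule.span (MonoidAlgebra ℤ P) (F : Set (Du S)) = ⊤ := by
    rw [eq_top_iff]
    intro f _
    let Φ : Subgroup (S →* ℂˣ) :=
      { carrier := {φ | mk φ ∈ Submodule.span (MonoidAlgebra ℤ P) (F : Set (Du S))}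
        mul_mem' := fun {a b} ha hb => by
          have h0 : mk a + mk b ∈ Submodule.span (MonoidAlgebra ℤ P) (F : Set (Du S)) :=
            Submodule.add_mem _ ha hb
          exact h0
        one_mem' := by
          have h0 : (0 : Du S) ∈ Submodule.span (MonoidAlgebra ℤ P) (F : Set (Du S)) :=
            Submodule.zero_mem _
          exact h0
        inv_mem' := fun {a} ha => by
          have h0 : -mk a ∈ Submodule.span (MonoidAlgebra ℤ P) (F : Set (Du S)) :=
            Submodule.neg_mem _ ha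
          exact h0 }
    let K : Subgroup S :=
      { carrier := {s | ∀ φ ∈ Φ, φ s = 1}
        mul_mem' := fun {a b} ha hb φ hφ => by rw [map_mul, ha φ hφ, hb φ hφ, one_mul]
        one_mem' := fun φ _ => map_one φ
        inv_mem' := fun {a} ha φ hφ => by rw [map_inv, ha φ hφ, inv_one] }
    have hK : K = ⊥ := by
      apply fix_nontriv p hP hS ρ K
      · intro g s hs φ hφ
        have h1 : (MonoidAlgebra.single g (1 : ℤ)) • mk φ ∈
            Submodule.span (MonoidAlgebra ℤ P) (F : Set (Du S)) := Submodule.smul_mem _ _ hφ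
        have h2 := hs _ (show ch ((MonoidAlgebra.single g (1 : ℤ)) • mk φ) ∈ Φ from h1)
        rw [hsm, modRing_single, zpow_one] at h2
        exact h2
      · intro s hs hs2
        apply sep
        intro φ
        rw [map_one]
        have h0 : mk (σ (MonoidHom.domRestrictHom (fixS ρ) ℂˣ φ)) ∈
            Submodule.span (MonoidAlgebra ℤ P) (F : Set (Du S)) := by
          apply Submodule.subset_span
          exact Finset.mem_coe.2 (Finset.mem_image_of_mem _ (Finset.mem_univ _))
        have h1 : σ (MonoidHom.domRestrictHom (fixS ρ) ℂˣ φ) ∈ Φ := h0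
        have h2 := hs _ h1
        have h3 := DFunLike.congr_fun (hσ (MonoidHom.domRestrictHom (fixS ρ) ℂˣ φ)) ⟨s, hs2⟩
        have h4 : (σ (MonoidHom.domRestrictHom (fixS ρ) ℂˣ φ)) s = φ s := h3
        rw [← h4, h2]
    have h1 : ch f ∈ Φ := by
      apply dann
      intro s hs
      have : s ∈ K := hs
      rw [hK, Subgroup.mem_bot] at this
      rw [this, map_one]
    exact h1
  obtain ⟨n, hn, a, ha, hann⟩ := cay I ((p : MonoidAlgebra ℤ P) ^ v) F hF key2
  refine ⟨fun g => (((p : MonoidAlgebra ℤ P) ^ v) ^ n + a).coeff g, ?_, v * n,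
    Nat.mul_le_mul hvB (hn.trans hFcard), ?_⟩
  · intro s
    apply sep
    intro φ
    have h1 := hann (mk φ)
    rw [hsm] at h1
    have h2 : ch (modRing ρ (((p : MonoidAlgebra ℤ P) ^ v) ^ n + a) (mk φ)) s = 1 := by
      rw [h1]; rfl
    rw [modRing_apply] at h2
    rw [map_one, map_prod, ← h2]
    refine Finset.prod_congr rfl fun g _ => ?_
    rw [map_zpow]
    rfl
  · rw [← aug_apply, map_add, map_pow, map_pow, map_natCast, (RingHom.mem_ker).1 ha, add_zero,
      ← pow_mul]

/-- the action on the quotient `U / V` -/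
theorem ann : Pool.Agent.Y18.LC.ANN := by
  intro p hp B
  refine ⟨B * B, ?_⟩
  intro P _ _ hP M _ _ U V hVU hU hV hpow hfin hB
  classical
  let N : Subgroup U := V.subgroupOf U
  let α : P → U →* U := fun g =>
    { toFun := fun u => ⟨g • (u : M), hU g u u.2⟩
      map_one' := Subtype.ext (smul_one g)
      map_mul' := fun a b => Subtype.ext (smul_mul' g (a : M) (b : M)) }
  have hα : ∀ g, N ≤ N.comap (α g) := by
    intro g u hu
    rw [Subgroup.mem_comap, Subgroup.mem_subgroupOf]
    exact hV g _ (Subgroup.mem_subgroupOf.1 hu)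
  let ρ : P →* Monoid.End (U ⧸ N) :=
    { toFun := fun g => QuotientGroup.map N N (α g) (hα g)
      map_one' := by
        apply MonoidHom.ext
        intro s
        obtain ⟨u, rfl⟩ := QuotientGroup.mk_surjective s
        show (QuotientGroup.mk (α 1 u) : U ⧸ N) = QuotientGroup.mk u
        congr 1
        exact Subtype.ext (one_smul P (u : M))
      map_mul' := by
        intro g h
        apply MonoidHom.ext
        intro s
        obtain ⟨u, rfl⟩ := QuotientGroup.mk_surjective s
        show (QuotientGroup.mk (α (g * h) u) : U ⧸ N) = QuotientGroup.mk (α g (α h u))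
        congr 1
        exact Subtype.ext (mul_smul g h (u : M)) }
  have hρ : ∀ g (u : U), ρ g (QuotientGroup.mk u) = (QuotientGroup.mk (α g u) : U ⧸ N) :=
    fun _ _ => rfl
  have hmk : ∀ u w : U, (QuotientGroup.mk u : U ⧸ N) = QuotientGroup.mk w ↔
      (u : M) / (w : M) ∈ V := by
    intro u w
    rw [eq_comm, QuotientGroup.eq, Subgroup.mem_subgroupOf]
    have : (((w⁻¹ * u : U)) : M) = (u : M) / (w : M) := by
      push_cast
      rw [div_eq_mul_inv, mul_comm]
    rw [this]
  -- finiteness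
  have hfinS : Finite (U ⧸ N) := by
    obtain ⟨R, hR⟩ := hfin
    let pick : R → U ⧸ N := fun r =>
      if h : ∃ u : U, (u : M) / (r : M) ∈ V then QuotientGroup.mk h.choose else 1
    refine Finite.of_surjective pick ?_
    intro s
    obtain ⟨u, rfl⟩ := QuotientGroup.mk_surjective s
    obtain ⟨r, hr, hur⟩ := hR u u.2
    refine ⟨⟨r, hr⟩, ?_⟩
    have h : ∃ u : U, (u : M) / (r : M) ∈ V := ⟨u, hur⟩
    show (if h : ∃ u : U, (u : M) / (r : M) ∈ V then (QuotientGroup.mk h.choose : U ⧸ N) else 1) = _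
    rw [dif_pos h, hmk]
    have h1 := V.div_mem h.choose_spec hur
    rwa [div_div_div_cancel_right] at h1
  have hpS : IsPGroup p (U ⧸ N) := by
    obtain ⟨n, hn⟩ := hpow
    intro s
    obtain ⟨u, rfl⟩ := QuotientGroup.mk_surjective s
    refine ⟨n, ?_⟩
    rw [← QuotientGroup.mk_pow, QuotientGroup.eq_one_iff, Subgroup.mem_subgroupOf]
    exact hn u u.2
  have hcard : Nat.card (fixS ρ) ≤ B := by
    obtain ⟨R, hR, hR2⟩ := hB
    let pick : R → fixS ρ := fun r =>
      if h : ∃ s : fixS ρ, ∃ u : U, (QuotientGroup.mk u : U ⧸ N) = s ∧ (u : M) / (r : M) ∈ V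
      then h.choose else 1
    have hsurj : Function.Surjective pick := by
      rintro ⟨s, hs⟩
      obtain ⟨u, rfl⟩ := QuotientGroup.mk_surjective s
      have h1 : ∀ g : P, g • (u : M) / u ∈ V := by
        intro g
        have h2 := hs g
        rw [hρ, hmk] at h2
        exact h2
      obtain ⟨r, hr, hur⟩ := hR2 u u.2 h1
      refine ⟨⟨r, hr⟩, ?_⟩
      have h : ∃ s : fixS ρ, ∃ u : U, (QuotientGroup.mk u : U ⧸ N) = s ∧ (u : M) / (r : M) ∈ V :=
        ⟨⟨_, hs⟩, u, rfl, hur⟩
      show (if h : ∃ s : fixS ρ, ∃ u : U, (QuotientGroup.mk u : U ⧸ N) = s ∧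
        (u : M) / (r : M) ∈ V then h.choose else 1) = _
      rw [dif_pos h]
      obtain ⟨u', hu', hu'2⟩ := h.choose_spec
      apply Subtype.ext
      rw [← hu', hmk]
      have h3 := V.div_mem hu'2 hur
      rwa [div_div_div_cancel_right] at h3
    have h4 := Nat.card_le_card_of_surjective pick hsurj
    have h5 : Nat.card R = R.card := by simp
    rw [h5] at h4
    exact h4.trans hR
  obtain ⟨x, hx1, hx2⟩ := ann_abs p B P (U ⧸ N) hP hpS ρ hcard
  refine ⟨x, ?_, hx2⟩
  intro u hu
  have h1 := hx1 (QuotientGroup.mk ⟨u, hu⟩)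
  have h2 : (QuotientGroup.mk (∏ g, (α g ⟨u, hu⟩) ^ x g) : U ⧸ N) = 1 := by
    rw [← h1]
    have : (QuotientGroup.mk (∏ g, (α g ⟨u, hu⟩) ^ x g) : U ⧸ N) =
      QuotientGroup.mk' N (∏ g, (α g ⟨u, hu⟩) ^ x g) := rfl
    rw [this, map_prod]
    refine Finset.prod_congr rfl fun g _ => ?_
    rw [map_zpow]
    rfl
  rw [QuotientGroup.eq_one_iff, Subgroup.mem_subgroupOf] at h2
  have h3 : ((∏ g, (α g ⟨u, hu⟩) ^ x g : U) : M) = ∏ g, (g • u) ^ x g := by
    rw [← Subgroup.coe_subtype, map_prod]
    refine Finset.prod_congr rfl fun g _ => ?_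
    rw [map_zpow]
    rfl
  rw [h3] at h2
  exact h2

end Pool.Agent.Y44.LC
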