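import Mathlib

set_option autoImplicit false

namespace Pool.Agent.Y44.LC

open Polynomial

/-- the determinant trick -/
theorem cay {Λ D : Type} [CommRing Λ] [AddCommGroup D] [Module Λ D] (I : Ideal Λ) (π : Λ)
    (F : Finset D) (hF : Submodule.span Λ (F : Set D) = ⊤)
    (hπ : ∀ d : D, π • d ∈ (I • ⊤ : Submodule Λ D)) :
    ∃ n : ℕ, n ≤ F.card ∧ ∃ a ∈ I, ∀ d : D, (π ^ n + a) • d = 0 := by
  classical
  have hfin : Module.Finite Λ D := ⟨⟨F, hF⟩⟩
  obtain ⟨q, hq1, hq2, hq3, hq4⟩ :=
    LinearMap.exists_monic_and_natDegree_eq_and_coeff_mem_pow_and_aeval_eq_zero Λ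
      (algebraMap Λ (Module.End Λ D) π) I (by
        rintro _ ⟨d, rfl⟩
        exact hπ d)
  have hdeg : q.natDegree ≤ F.card := by
    rw [hq2, ← hF]
    have := Submodule.spanFinrank_span_le_ncard_of_finite (R := Λ) F.finite_toSet
    rwa [Set.ncard_coe_finset] at this
  have hev : ∀ d : D, q.eval π • d = 0 := by
    intro d
    rw [Polynomial.aeval_algebraMap_apply] at hq4
    have := LinearMap.congr_fun hq4 d
    rw [Polynomial.coe_aeval_eq_eval] at this
    exact this
  refine ⟨q.natDegree, hdeg, ∑ k ∈ Finset.range q.natDegree, q.coeff k * π ^ k, ?_, ?_⟩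
  · refine I.sum_mem fun k hk => I.mul_mem_right _ ?_
    have h1 := hq3 k
    have h2 : q.natDegree - k ≠ 0 := by
      have := Finset.mem_range.1 hk
      omega
    exact Ideal.pow_le_self h2 h1
  · intro d
    have h1 : π ^ q.natDegree + ∑ k ∈ Finset.range q.natDegree, q.coeff k * π ^ k = q.eval π := by
      rw [Polynomial.eval_eq_sum_range, Finset.sum_range_succ, Polynomial.coeff_natDegree,
        hq1.leadingCoeff, one_mul, add_comm]
    rw [h1]
    exact hev d

section dual

variable {P S : Type} [CommGroup P] [CommGroup S]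

/-- the character group, written additively -/
def Du (S : Type) [CommGroup S] : Type := Additive (S →* ℂˣ)

noncomputable instance : AddCommGroup (Du S) := inferInstanceAs (AddCommGroup (Additive (S →* ℂˣ)))

/-- the underlying character -/
def ch (f : Du S) : S →* ℂˣ := Additive.toMul f

/-- a character as an element of the additive group -/
def mk (f : S →* ℂˣ) : Du S := Additive.ofMul f

theorem ch_mk (f : S →* ℂˣ) : ch (mk f) = f := rfl
theorem mk_ch (f : Du S) : mk (ch f) = f := rfl
theorem ch_zero (s : S) : ch (0 : Du S) s = 1 := rfl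
theorem ch_add (f g : Du S) (s : S) : ch (f + g) s = ch f s * ch g s := rfl

theorem ch_ext {f g : Du S} (h : ∀ s, ch f s = ch g s) : f = g := by
  have : ch f = ch g := MonoidHom.ext h
  exact this

/-- the action on characters -/
noncomputable def actEnd (ρ : P →* Monoid.End S) : P →* AddMonoid.End (Du S) where
  toFun g :=
    { toFun := fun f => mk ((ch f).comp (ρ g))
      map_zero' := rfl
      map_add' := fun _ _ => rfl }
  map_one' := by
    apply AddMonoidHom.ext
    intro f
    apply ch_ext
    intro s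
    show ch f (ρ 1 s) = ch f s
    rw [map_one]
    rfl
  map_mul' g h := by
    apply AddMonoidHom.ext
    intro f
    apply ch_ext
    intro s
    show ch f (ρ (g * h) s) = ch f (ρ h (ρ g s))
    rw [mul_comm g h, map_mul]
    rfl

theorem actEnd_apply (ρ : P →* Monoid.End S) (g : P) (f : Du S) (s : S) :
    ch (actEnd ρ g f) s = ch f (ρ g s) := rfl

/-- the group ring acting on characters -/
noncomputable def modRing (ρ : P →* Monoid.End S) : MonoidAlgebra ℤ P →+* AddMonoid.End (Du S) :=
  (MonoidAlgebra.lift ℤ (AddMonoid.End (Du S)) P (actEnd ρ)).toRingHom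

theorem ch_zsmul (n : ℤ) (f : Du S) (s : S) : ch (n • f) s = (ch f s) ^ n := rfl

theorem modRing_single (ρ : P →* Monoid.End S) (g : P) (n : ℤ) (f : Du S) (s : S) :
    ch (modRing ρ (MonoidAlgebra.single g n) f) s = (ch f (ρ g s)) ^ n := by
  have h1 : modRing ρ (MonoidAlgebra.single g n) = n • actEnd ρ g :=
    MonoidAlgebra.lift_single _ _ _
  have h2 : (n • actEnd ρ g) f = n • (actEnd ρ g f) := by
    rfl
  rw [h1, h2, ch_zsmul, actEnd_apply]

theorem modRing_apply [Fintype P] (ρ : P →* Monoid.End S) (x : MonoidAlgebra ℤ P) (f : Du S)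
    (s : S) : ch (modRing ρ x f) s = ∏ g, (ch f (ρ g s)) ^ (x.coeff g) := by
  classical
  induction x using MonoidAlgebra.induction_linear with
  | zero =>
    rw [map_zero]
    simp only [MonoidAlgebra.coeff_zero, Finsupp.coe_zero, Pi.zero_apply, zpow_zero,
      Finset.prod_const_one]
    rfl
  | add x y hx hy =>
    rw [map_add]
    have h1 : ch ((modRing ρ x + modRing ρ y) f) s =
      ch (modRing ρ x f) s * ch (modRing ρ y f) s := rfl
    rw [h1, hx, hy, ← Finset.prod_mul_distrib]
    refine Finset.prod_congr rfl fun g _ => ?_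
    rw [← zpow_add]
    rfl
  | single g n =>
    rw [modRing_single, Finset.prod_eq_single g]
    · rw [MonoidAlgebra.coeff_single, Finsupp.single_eq_same]
    · intro h _ hh
      rw [MonoidAlgebra.coeff_single, Finsupp.single_eq_of_ne hh, zpow_zero]
    · intro h; exact absurd (Finset.mem_univ _) h

/-- augmentation -/
noncomputable def aug (P : Type) [CommGroup P] : MonoidAlgebra ℤ P →+* ℤ :=
  (MonoidAlgebra.lift ℤ ℤ P 1).toRingHom

theorem aug_single (g : P) (n : ℤ) : aug P (MonoidAlgebra.single g n) = n := by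
  have h1 : aug P (MonoidAlgebra.single g n) = n • (1 : P →* ℤ) g :=
    MonoidAlgebra.lift_single _ _ _
  rw [h1]; simp

theorem aug_apply [Fintype P] (x : MonoidAlgebra ℤ P) : aug P x = ∑ g, x.coeff g := by
  classical
  induction x using MonoidAlgebra.induction_linear with
  | zero => simp
  | add x y hx hy =>
    rw [map_add, hx, hy, ← Finset.sum_add_distrib]
    rfl
  | single g n =>
    rw [aug_single, Finset.sum_eq_single g]
    · rw [MonoidAlgebra.coeff_single, Finsupp.single_eq_same]
    · intro h _ hh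
      rw [MonoidAlgebra.coeff_single, Finsupp.single_eq_of_ne hh]
    · intro h; exact absurd (Finset.mem_univ _) h

/-- double annihilator -/
theorem dann [Finite S] (Φ : Subgroup (S →* ℂˣ)) (f : S →* ℂˣ)
    (h : ∀ s, (∀ φ ∈ Φ, φ s = 1) → f s = 1) : f ∈ Φ := by
  have : NeZero (Monoid.exponent S) := ⟨Monoid.exponent_ne_zero_of_finite⟩
  have key := (CommGroup.subgroupOrderIsoSubgroupMonoidHom S ℂ).apply_symm_apply
    (OrderDual.toDual Φ)
  have h2 : f ∈ (CommGroup.subgroupOrderIsoSubgroupMonoidHom S ℂ
      ((CommGroup.subgroupOrderIsoSubgroupMonoidHom S ℂ).symm (OrderDual.toDual Φ))).ofDual := by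
    rw [CommGroup.mem_subgroupOrderIsoSubgroupMonoidHom_iff]
    intro g hg
    rw [CommGroup.mem_subgroupOrderIsoSubgroupMonoidHom_symm_iff] at hg
    exact h g hg
  rw [key] at h2
  exact h2

theorem sep [Finite S] {s t : S} (h : ∀ f : S →* ℂˣ, f s = f t) : s = t := by
  have : NeZero (Monoid.exponent S) := ⟨Monoid.exponent_ne_zero_of_finite⟩
  exact (CommGroup.forall_apply_eq_apply_iff S).1 h

/-- the fixed subgroup -/
def fixS (ρ : P →* Monoid.End S) : Subgroup S where
  carrier := {s | ∀ g, ρ g s = s}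
  mul_mem' := by
    intro a b ha hb g
    rw [map_mul, ha, hb]
  one_mem' := fun g => map_one _
  inv_mem' := by
    intro a ha g
    rw [map_inv, ha]

theorem mem_fixS (ρ : P →* Monoid.End S) (s : S) : s ∈ fixS ρ ↔ ∀ g, ρ g s = s := Iff.rfl

/-- a nontrivial invariant subgroup contains nontrivial fixed points -/
theorem fix_nontriv (p : ℕ) [Fact p.Prime] (hP : IsPGroup p P) [Finite S] (hS : IsPGroup p S)
    (ρ : P →* Monoid.End S) (K : Subgroup S) (hK : ∀ g, ∀ s ∈ K, ρ g s ∈ K)
    (h : ∀ s ∈ K, s ∈ fixS ρ → s = 1) : K = ⊥ := by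
  by_contra hne
  let _ : MulAction P K :=
    { smul := fun g s => ⟨ρ g s, hK g s s.2⟩
      one_smul := fun s => by
        apply Subtype.ext
        show ρ 1 (s : S) = s
        rw [map_one]; rfl
      mul_smul := fun g h s => by
        apply Subtype.ext
        show ρ (g * h) (s : S) = ρ g (ρ h (s : S))
        rw [map_mul]; rfl }
  have hnt : Nontrivial K := K.nontrivial_iff_ne_bot.2 hne
  have hKp : IsPGroup p K := hS.to_subgroup K
  obtain ⟨n, hn0, hn⟩ := hKp.nontrivial_iff_card.mp hnt
  have hdvd : p ∣ Nat.card K := hn.symm ▸ dvd_pow_self _ (ne_of_gt hn0)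
  obtain ⟨b, hb, hb1⟩ := hP.exists_fixed_point_of_prime_dvd_card_of_fixed_point K hdvd
    (a := (1 : K)) (by
      intro g
      apply Subtype.ext
      exact map_one (ρ g))
  apply hb1
  apply Subtype.ext
  symm
  apply h b b.2
  intro g
  exact congrArg Subtype.val (hb g)

end dual

end Pool.Agent.Y44.LC
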