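import Mathlib

set_option autoImplicit false

/-!
# A cycle of angles in one arc (project LC)
-/

open Set Filter Topology

namespace Pool.Agent.Y44.LC

/-- a monotone map of degree one -/
noncomputable def psi (d : ℕ) (z : ℝ) : ℝ := ⌊z⌋ + min (d * Int.fract z) 1

lemma psi_add_int (d : ℕ) (z : ℝ) (n : ℤ) : psi d (z + n) = psi d z + n := by
  unfold psi
  rw [Int.floor_add_intCast, Int.fract_add_intCast]
  push_cast
  ring

lemma psi_lip {d : ℕ} (hd : 1 ≤ d) {x y : ℝ} (h : x ≤ y) : psi d y - psi d x ≤ d * (y - x) := by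
  have hd' : (1 : ℝ) ≤ d := by exact_mod_cast hd
  unfold psi
  have hx0 := Int.fract_nonneg x
  have hy0 := Int.fract_nonneg y
  have hx1 := Int.fract_lt_one x
  have hxe := Int.floor_add_fract x
  have hye := Int.floor_add_fract y
  have hfl : ⌊x⌋ ≤ ⌊y⌋ := Int.floor_le_floor h
  set f := Int.fract x
  set g := Int.fract y
  rcases hfl.eq_or_lt with e | e
  · rw [← e] at hye ⊢
    have h1 : f ≤ g := by linarith
    have h3 : (d : ℝ) * (y - x) = d * g - d * f := by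
      rw [← hxe, ← hye]
      ring
    rw [h3]
    rcases le_total (d * f) 1 with h4 | h4
    · rw [min_eq_left h4]
      linarith [min_le_left (d * g) 1]
    · rw [min_eq_right h4]
      have : (d : ℝ) * f ≤ d * g := mul_le_mul_of_nonneg_left h1 (by linarith)
      linarith [min_le_right (d * g) 1]
  · have e' : (⌊x⌋ : ℝ) + 1 ≤ ⌊y⌋ := by exact_mod_cast e
    have h3 : (d : ℝ) * (y - x) = d * (⌊y⌋ - ⌊x⌋) + d * g - d * f := by
      conv_lhs => rw [← hxe, ← hye]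
      ring
    rw [h3]
    have h5 := min_le_left (d * g) 1
    rcases le_total (d * f) 1 with h4 | h4
    · rw [min_eq_left h4]
      nlinarith
    · rw [min_eq_right h4]
      nlinarith

lemma psi_mono {d : ℕ} (hd : 1 ≤ d) {x y : ℝ} (h : x ≤ y) : psi d x ≤ psi d y := by
  have hd' : (1 : ℝ) ≤ d := by exact_mod_cast hd
  unfold psi
  have hx0 := Int.fract_nonneg x
  have hy0 := Int.fract_nonneg y
  have hx1 := Int.fract_lt_one x
  have hxe := Int.floor_add_fract x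
  have hye := Int.floor_add_fract y
  have hfl : ⌊x⌋ ≤ ⌊y⌋ := Int.floor_le_floor h
  set f := Int.fract x
  set g := Int.fract y
  rcases hfl.eq_or_lt with e | e
  · rw [← e] at hye ⊢
    have h1 : f ≤ g := by linarith
    have h2 : (d : ℝ) * f ≤ d * g := mul_le_mul_of_nonneg_left h1 (by linarith)
    linarith [min_le_min_right 1 h2]
  · have e' : (⌊x⌋ : ℝ) + 1 ≤ ⌊y⌋ := by exact_mod_cast e
    have h5 := min_le_right (d * f) 1
    have h6 : 0 ≤ min (d * g) 1 := le_min (mul_nonneg (by linarith) hy0) zero_le_one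
    linarith

lemma psi_cont {d : ℕ} (hd : 1 ≤ d) : Continuous (psi d) := by
  have h : LipschitzWith (d : NNReal) (psi d) := by
    refine LipschitzWith.of_dist_le_mul fun x y => ?_
    rw [Real.dist_eq, Real.dist_eq]
    rcases le_total x y with h | h
    · rw [abs_sub_comm, abs_sub_comm x y, abs_of_nonneg (sub_nonneg.2 (psi_mono hd h)),
        abs_of_nonneg (sub_nonneg.2 h)]
      exact psi_lip hd h
    · rw [abs_of_nonneg (sub_nonneg.2 (psi_mono hd h)), abs_of_nonneg (sub_nonneg.2 h)]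
      exact psi_lip hd h
  exact h.continuous

lemma psi_flat {d : ℕ} (hd : 1 ≤ d) {z : ℝ} (h : 1 / (d : ℝ) ≤ Int.fract z) :
    psi d z = ⌊z⌋ + 1 := by
  have hd' : (0 : ℝ) < d := by exact_mod_cast (by omega : 0 < d)
  unfold psi
  rw [min_eq_right]
  rwa [div_le_iff₀' hd'] at h

lemma psi_lin {d : ℕ} (hd : 1 ≤ d) {z : ℝ} (h : Int.fract z ≤ 1 / (d : ℝ)) :
    psi d z = ⌊z⌋ + d * Int.fract z := by
  have hd' : (0 : ℝ) < d := by exact_mod_cast (by omega : 0 < d)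
  unfold psi
  rw [min_eq_left]
  rwa [le_div_iff₀' hd'] at h

/-- the map `G` -/
noncomputable def G (d : ℕ) (θ x₀ : ℝ) (x : ℝ) : ℝ := θ + psi d (x - x₀)

section G

variable {d : ℕ} {θ x₀ : ℝ}

lemma G_cont (hd : 1 ≤ d) : Continuous (G d θ x₀) := by
  unfold G
  exact continuous_const.add ((psi_cont hd).comp (continuous_id.sub continuous_const))

lemma G_add (x : ℝ) (n : ℤ) : G d θ x₀ (x + n) = G d θ x₀ x + n := by
  unfold G
  rw [show x + n - x₀ = (x - x₀) + n by ring, psi_add_int]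
  ring

lemma G_iter_add (j : ℕ) (x : ℝ) (n : ℤ) :
    (G d θ x₀)^[j] (x + n) = (G d θ x₀)^[j] x + n := by
  induction j generalizing x with
  | zero => rfl
  | succ j ih => rw [Function.iterate_succ_apply, Function.iterate_succ_apply, G_add, ih]

lemma G_lin (hd : 1 ≤ d) {k : ℤ} (hx₀ : d * x₀ = θ + k) {x : ℝ}
    (h : Int.fract (x - x₀) ≤ 1 / (d : ℝ)) : ∃ n : ℤ, G d θ x₀ x = d * x + n := by
  refine ⟨⌊x - x₀⌋ - k - d * ⌊x - x₀⌋, ?_⟩
  unfold G
  rw [psi_lin hd h, Int.fract]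
  push_cast
  linear_combination -hx₀

lemma G_flat (hd : 1 ≤ d) {x : ℝ} (h : 1 / (d : ℝ) ≤ Int.fract (x - x₀)) :
    G d θ x₀ x = θ + (⌊x - x₀⌋ + 1) := by
  unfold G
  rw [psi_flat hd h]

lemma G_not (hd : 1 ≤ d) {x : ℝ}
    (h : ¬ (0 < Int.fract (x - x₀) ∧ Int.fract (x - x₀) < 1 / (d : ℝ))) :
    ∃ n : ℤ, G d θ x₀ x = θ + n := by
  by_cases h1 : 1 / (d : ℝ) ≤ Int.fract (x - x₀)
  · exact ⟨⌊x - x₀⌋ + 1, by rw [G_flat hd h1]; push_cast; ring⟩
  · push Not at h1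
    have h2 : Int.fract (x - x₀) = 0 := by
      by_contra h3
      exact h ⟨lt_of_le_of_ne (Int.fract_nonneg _) (Ne.symm h3), h1⟩
    refine ⟨⌊x - x₀⌋, ?_⟩
    unfold G
    rw [psi_lin hd (by rw [h2]; positivity), h2]
    ring

/-- `G` is constant near the points of the open flat part -/
lemma G_near (hd : 1 ≤ d) {x : ℝ} (h : 1 / (d : ℝ) < Int.fract (x - x₀)) :
    ∀ᶠ y in 𝓝 x, G d θ x₀ y = G d θ x₀ x := by
  have h1 := Int.fract_lt_one (x - x₀)
  have h2 := Int.floor_add_fract (x - x₀)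
  have hd' : 0 < 1 / (d : ℝ) := by
    have : (0 : ℝ) < d := by exact_mod_cast (by omega : 0 < d)
    positivity
  have hmem : Ioo (x₀ + ⌊x - x₀⌋ + 1 / (d : ℝ)) (x₀ + ⌊x - x₀⌋ + 1) ∈ 𝓝 x :=
    Ioo_mem_nhds (by linarith) (by linarith)
  filter_upwards [hmem] with y hy
  have hfl : ⌊y - x₀⌋ = ⌊x - x₀⌋ := by
    rw [Int.floor_eq_iff]
    constructor
    · linarith [hy.1]
    · linarith [hy.2]
  have hfr : 1 / (d : ℝ) ≤ Int.fract (y - x₀) := by
    rw [Int.fract, hfl]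
    linarith [hy.1]
  rw [G_flat hd hfr, G_flat hd h.le, hfl]

lemma near_iter (hd : 1 ≤ d) {y : ℝ} {m M : ℕ} (hM : m + 1 ≤ M)
    (h : 1 / (d : ℝ) < Int.fract ((G d θ x₀)^[m] y - x₀)) :
    ∀ᶠ x in 𝓝 y, (G d θ x₀)^[M] x = (G d θ x₀)^[M] y := by
  obtain ⟨c, rfl⟩ := Nat.exists_eq_add_of_le hM
  have h1 := ((G_cont (θ := θ) (x₀ := x₀) hd).iterate m).continuousAt.eventually
    (G_near (θ := θ) hd h)
  filter_upwards [h1] with x hx
  have h2 : (G d θ x₀)^[m + 1] x = (G d θ x₀)^[m + 1] y := by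
    rw [Function.iterate_succ_apply', Function.iterate_succ_apply', hx]
  rw [show m + 1 + c = c + (m + 1) by ring, Function.iterate_add_apply _ c (m + 1) x,
    Function.iterate_add_apply _ c (m + 1) y, h2]

lemma iter_lin (hd : 1 ≤ d) {k : ℤ} (hx₀ : d * x₀ = θ + k) {y : ℝ} {m : ℕ}
    (h : ∀ j < m, Int.fract ((G d θ x₀)^[j] y - x₀) ≤ 1 / (d : ℝ)) :
    ∃ n : ℤ, (G d θ x₀)^[m] y = d ^ m * y + n := by
  induction m with
  | zero => exact ⟨0, by simp⟩
  | succ m ih =>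
    obtain ⟨n, hn⟩ := ih fun j hj => h j (by omega)
    obtain ⟨n', hn'⟩ := G_lin hd hx₀ (h m (Nat.lt_succ_self m))
    refine ⟨n' + d * n, ?_⟩
    rw [Function.iterate_succ_apply', hn', hn]
    push_cast
    ring

lemma iter_per {q : ℕ} {p : ℤ} {y : ℝ} (h : (G d θ x₀)^[q] y = y + p) (r : ℕ) :
    (G d θ x₀)^[q * r] y = y + (r * p : ℤ) := by
  induction r with
  | zero => simp
  | succ r ih =>
    rw [Nat.mul_succ, Nat.add_comm, Function.iterate_add_apply, ih, G_iter_add, h]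
    push_cast
    ring

end G

lemma exists_cross {F : ℝ → ℝ} (hF : Continuous F) {t t' : ℝ} (htt : t < t')
    (hnear : ∀ᶠ x in 𝓝 t, F x = t) (ht' : F t' = t') :
    ∃ a, t < a ∧ F a = a ∧ ∀ x ∈ Ioo t a, F x < x := by
  obtain ⟨ε, hε, hball⟩ := Metric.eventually_nhds_iff.1 hnear
  obtain ⟨s, hs1, hs2⟩ : ∃ s, t < s ∧ s < min (t + ε) t' :=
    exists_between (lt_min (by linarith) htt)
  have hs3 : s < t + ε := hs2.trans_le (min_le_left _ _)
  have hs4 : s < t' := hs2.trans_le (min_le_right _ _)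
  have hsm : ∀ x, t < x → x ≤ s → F x < x := by
    intro x h1 h2
    have : F x = t := hball (by rw [Real.dist_eq, abs_lt]; constructor <;> linarith)
    linarith
  let B : Set ℝ := {x | s ≤ x ∧ x ≤ F x}
  have hBc : IsClosed B := (isClosed_le continuous_const continuous_id).inter
    (isClosed_le continuous_id hF)
  have hBn : B.Nonempty := ⟨t', hs4.le, ht'.ge⟩
  have hBb : BddBelow B := ⟨s, fun x hx => hx.1⟩
  have ha : sInf B ∈ B := hBc.csInf_mem hBn hBb
  set a := sInf B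
  have has : s < a := by
    rcases ha.1.eq_or_lt with h | h
    · exfalso
      have h1 := hsm s hs1 le_rfl
      have h2 := ha.2
      rw [← h] at h2
      linarith
    · exact h
  have hlt : ∀ x ∈ Ioo t a, F x < x := by
    intro x hx
    rcases le_or_gt x s with h | h
    · exact hsm x hx.1 h
    · by_contra hc
      push Not at hc
      exact absurd (csInf_le hBb (show x ∈ B from ⟨h.le, hc⟩)) (not_le.2 hx.2)
  refine ⟨a, hs1.trans has, le_antisymm ?_ ha.2, hlt⟩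
  by_contra hc
  push Not at hc
  have hopen : ∀ᶠ x in 𝓝 a, x < F x := (isOpen_lt continuous_id hF).mem_nhds hc
  obtain ⟨x, hx1, hx2⟩ := ((hopen.filter_mono nhdsWithin_le_nhds).and
    (Ioo_mem_nhdsLT (hs1.trans has))).exists
  exact absurd (hlt x hx2) (not_lt.2 hx1.le)

/-- the periodic orbit in the arc -/
lemma exists_orbit {d : ℕ} {θ x₀ : ℝ} (hd : 1 ≤ d) {k : ℤ} (hx₀ : d * x₀ = θ + k)
    (hi : ∃ m : ℕ, 1 / (d : ℝ) < Int.fract ((d : ℝ) ^ m * θ - x₀)) :
    ∃ (a : ℝ) (q : ℕ), 1 ≤ q ∧ (∃ n : ℤ, (d : ℝ) ^ q * a = a + n) ∧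
      ∀ j : ℕ, 0 < Int.fract ((d : ℝ) ^ j * a - x₀) ∧
        Int.fract ((d : ℝ) ^ j * a - x₀) < 1 / (d : ℝ) := by
  classical
  let i := Nat.find hi
  have hi1 : 1 / (d : ℝ) < Int.fract ((d : ℝ) ^ i * θ - x₀) := Nat.find_spec hi
  have hi2 : ∀ j < i, Int.fract ((d : ℝ) ^ j * θ - x₀) ≤ 1 / (d : ℝ) := fun j hj =>
    not_lt.1 (Nat.find_min hi hj)
  have hθ : ∀ j ≤ i, ∃ n : ℤ, (G d θ x₀)^[j] θ = d ^ j * θ + n := by
    intro j
    induction j using Nat.strong_induction_on with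
    | _ j ih =>
      intro hj
      apply iter_lin hd hx₀
      intro j' hj'
      obtain ⟨n, hn⟩ := ih j' hj' (by omega)
      rw [hn, show (d : ℝ) ^ j' * θ + n - x₀ = (d ^ j' * θ - x₀) + n by ring,
        Int.fract_add_intCast]
      exact hi2 j' (by omega)
  obtain ⟨n₁, hn₁⟩ := hθ i le_rfl
  have hfl : 1 / (d : ℝ) < Int.fract ((G d θ x₀)^[i] θ - x₀) := by
    rw [hn₁, show (d : ℝ) ^ i * θ + n₁ - x₀ = (d ^ i * θ - x₀) + n₁ by ring,
      Int.fract_add_intCast]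
    exact hi1
  obtain ⟨p, hp⟩ : ∃ p : ℤ, (G d θ x₀)^[i + 1] θ = θ + p := by
    refine ⟨⌊(G d θ x₀)^[i] θ - x₀⌋ + 1, ?_⟩
    rw [Function.iterate_succ_apply', G_flat hd hfl.le]
    push_cast
    ring
  have hFc : Continuous fun x => (G d θ x₀)^[i + 1] x - p :=
    ((G_cont hd).iterate _).sub continuous_const
  obtain ⟨a, hθa, hFa, hlt⟩ := exists_cross hFc (lt_add_one θ)
    (by
      filter_upwards [near_iter (M := i + 1) hd le_rfl hfl] with x hx
      rw [hx, hp]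
      ring)
    (by
      have h := G_iter_add (d := d) (θ := θ) (x₀ := x₀) (i + 1) θ 1
      rw [Int.cast_one] at h
      rw [h, hp]
      ring)
  have hFa' : (G d θ x₀)^[i + 1] a = a + p := by
    have : (G d θ x₀)^[i + 1] a - p = a := hFa
    linarith
  have key : ∀ j, 0 < Int.fract ((G d θ x₀)^[j] a - x₀) ∧
      Int.fract ((G d θ x₀)^[j] a - x₀) < 1 / (d : ℝ) := by
    intro j
    by_contra hc
    obtain ⟨m, hm⟩ := G_not (θ := θ) hd hc
    rw [← Function.iterate_succ_apply' (G d θ x₀)] at hm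
    -- a is on the orbit of θ
    obtain ⟨l, c, hl, hac⟩ : ∃ (l : ℕ) (c : ℤ), l ≤ i ∧ a = (G d θ x₀)^[l] θ + c := by
      have h1 := iter_per hFa' (j + 1)
      have hle : j + 1 ≤ (i + 1) * (j + 1) := Nat.le_mul_of_pos_left _ (Nat.succ_pos i)
      obtain ⟨T, hT⟩ := Nat.exists_eq_add_of_le hle
      rw [hT, Nat.add_comm, Function.iterate_add_apply, hm, G_iter_add] at h1
      have h2 := Nat.div_add_mod T (i + 1)
      have h3 : (G d θ x₀)^[T] θ = (G d θ x₀)^[T % (i + 1)] θ + (((T / (i + 1) : ℕ) : ℤ) * p : ℤ) := by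
        conv_lhs => rw [← h2, Nat.add_comm, Function.iterate_add_apply, iter_per hp, G_iter_add]
      rw [h3] at h1
      refine ⟨T % (i + 1), ((T / (i + 1) : ℕ) : ℤ) * p + m - ((j + 1 : ℕ) : ℤ) * p,
        Nat.lt_succ_iff.1 (Nat.mod_lt _ (Nat.succ_pos i)), ?_⟩
      push_cast at h1 ⊢
      linarith
    have hfa : 1 / (d : ℝ) < Int.fract ((G d θ x₀)^[i - l] a - x₀) := by
      rw [hac, G_iter_add, ← Function.iterate_add_apply, Nat.sub_add_cancel hl,
        show (G d θ x₀)^[i] θ + (c : ℝ) - x₀ = ((G d θ x₀)^[i] θ - x₀) + c by ring,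
        Int.fract_add_intCast]
      exact hfl
    have hnear := near_iter (M := i + 1) hd (by omega) hfa
    obtain ⟨x, hx1, hx2⟩ := ((hnear.filter_mono nhdsWithin_le_nhds).and
      (Ioo_mem_nhdsLT hθa)).exists
    have h4 := hlt x hx2
    rw [hx1, hFa'] at h4
    linarith [hx2.2]
  have hit : ∀ j, ∃ n : ℤ, (G d θ x₀)^[j] a = d ^ j * a + n := fun j =>
    iter_lin hd hx₀ fun j' _ => (key j').2.le
  refine ⟨a, i + 1, Nat.succ_pos i, ?_, ?_⟩
  · obtain ⟨n, hn⟩ := hit (i + 1)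
    refine ⟨p - n, ?_⟩
    push_cast
    linarith
  · intro j
    obtain ⟨n, hn⟩ := hit j
    have h := key j
    rw [hn, show (d : ℝ) ^ j * a + n - x₀ = (d ^ j * a - x₀) + n by ring,
      Int.fract_add_intCast] at h
    exact h

lemma fixed_of_affine {d : ℕ} (hd : 2 ≤ d) {U : ℕ → ℝ} {c : ℤ} {q : ℕ} (hq : 1 ≤ q)
    (hU : ∀ j, U (j + 1) = d * U j - c) (hper : U q = U 0) : ((d : ℝ) - 1) * U 0 = c := by
  have h1 : ∀ j, ((d : ℝ) - 1) * U j - c = d ^ j * (((d : ℝ) - 1) * U 0 - c) := by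
    intro j
    induction j with
    | zero => simp
    | succ j ih =>
      rw [hU, pow_succ]
      linear_combination d * ih
  have h2 := h1 q
  rw [hper] at h2
  have hd' : (1 : ℝ) < d := by exact_mod_cast (by omega : 1 < d)
  have h3 : (1 : ℝ) < (d : ℝ) ^ q := one_lt_pow₀ hd' (by omega)
  have h4 : ((d : ℝ) ^ q - 1) * (((d : ℝ) - 1) * U 0 - c) = 0 := by linear_combination -h2
  rcases mul_eq_zero.1 h4 with h5 | h5
  · linarith
  · linarith

/-- a cycle of angles in one arc -/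
theorem per_core (d : ℕ) (θ : ℝ) (hd : 2 ≤ d) (h0 : 0 < θ) (h1 : θ < 1)
    (hper : ∀ i j : ℕ, i < j → ∀ n : ℤ, (d : ℝ) ^ j * θ ≠ (d : ℝ) ^ i * θ + n)
    (hclose : ∀ κ : ℝ, 0 < κ → ∃ (m : ℕ) (n : ℤ), |(d : ℝ) ^ m * θ - n| < κ) :
    ∃ (x a : ℝ) (q : ℕ), (∃ n : ℤ, (d : ℝ) * x = θ + n) ∧ 1 ≤ q ∧
      (∃ n : ℤ, (d : ℝ) ^ q * a = a + n) ∧
      (∀ j : ℕ, ∃ n : ℤ, (d : ℝ) ^ j * a + n ∈ Ioo x (x + 1 / d)) ∧
      (∃ (j : ℕ) (n : ℤ), (d : ℝ) ^ j * a + n ∈ Ioo 0 θ) ∧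
      (∃ (j : ℕ) (n : ℤ), (d : ℝ) ^ j * a + n ∈ Ioo (θ - 1) 0) ∧
      ∀ (j : ℕ) (n : ℤ), (d : ℝ) ^ j * a + n ∉ Ioo ((θ - 1) / d) (θ / d) := by
  have hd2 : (2 : ℝ) ≤ d := by exact_mod_cast hd
  have hd0 : (0 : ℝ) < d := by linarith
  obtain ⟨k, hk⟩ : ∃ k : ℤ, k = ⌊((d : ℝ) - 1) * θ⌋ := ⟨_, rfl⟩
  have hk1 : (k : ℝ) < ((d : ℝ) - 1) * θ := by
    refine lt_of_le_of_ne (by rw [hk]; exact Int.floor_le _) fun h => ?_
    apply hper 0 1 Nat.zero_lt_one k
    rw [pow_one, pow_zero, h]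
    ring
  have hk2 : ((d : ℝ) - 1) * θ < k + 1 := by
    rw [hk]
    exact Int.lt_floor_add_one _
  have hk3 : 0 ≤ k := by
    rw [hk]
    exact Int.floor_nonneg.2 (mul_nonneg (by linarith) h0.le)
  have hk4 : k ≤ (d : ℤ) - 2 := by
    have : k < (d : ℤ) - 1 := by
      rw [hk, Int.floor_lt]
      push_cast
      nlinarith
    omega
  have hk3' : (0 : ℝ) ≤ k := by exact_mod_cast hk3
  have hk4' : (k : ℝ) ≤ d - 2 := by exact_mod_cast hk4
  obtain ⟨x₀, hx₀⟩ : ∃ x₀ : ℝ, (d : ℝ) * x₀ = θ + k := ⟨(θ + k) / d, by field_simp⟩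
  have hx1 : 0 < x₀ := by
    by_contra h
    push Not at h
    nlinarith
  have hx2 : x₀ + 1 / (d : ℝ) < 1 := by
    have : (d : ℝ) * (x₀ + 1 / d) < d := by
      rw [mul_add, hx₀, mul_one_div_cancel hd0.ne']
      linarith
    nlinarith
  have hi : ∃ m : ℕ, 1 / (d : ℝ) < Int.fract ((d : ℝ) ^ m * θ - x₀) := by
    obtain ⟨m, n, hmn⟩ := hclose (min x₀ (1 - x₀ - 1 / d)) (lt_min hx1 (by linarith))
    have h2 : |(d : ℝ) ^ m * θ - n| < x₀ := hmn.trans_le (min_le_left _ _)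
    have h3 : |(d : ℝ) ^ m * θ - n| < 1 - x₀ - 1 / d := hmn.trans_le (min_le_right _ _)
    rw [abs_lt] at h2 h3
    have hinv : 0 < 1 / (d : ℝ) := by positivity
    refine ⟨m, ?_⟩
    have hfl : ⌊(d : ℝ) ^ m * θ - x₀⌋ = n - 1 := by
      rw [Int.floor_eq_iff]
      push_cast
      constructor
      · linarith [h3.1]
      · linarith [h2.2]
    rw [Int.fract, hfl]
    push_cast
    linarith [h3.1]
  obtain ⟨a, q, hq, ⟨n₀, hn₀⟩, horb⟩ := exists_orbit (by omega) hx₀ hi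
  obtain ⟨U, hU⟩ : ∃ U : ℕ → ℝ, ∀ j, U j = x₀ + Int.fract ((d : ℝ) ^ j * a - x₀) := ⟨_, fun _ => rfl⟩
  have hUn : ∀ j, ∃ n : ℤ, U j = (d : ℝ) ^ j * a + n := fun j => by
    refine ⟨-⌊(d : ℝ) ^ j * a - x₀⌋, ?_⟩
    rw [hU, Int.fract]
    push_cast
    ring
  have hU1 : ∀ j, x₀ < U j := fun j => by rw [hU]; linarith [(horb j).1]
  have hU2 : ∀ j, U j < x₀ + 1 / d := fun j => by rw [hU]; linarith [(horb j).2]
  have hinv : 0 < 1 / (d : ℝ) := by positivity
  have hinv2 : 1 / (d : ℝ) ≤ 1 / 2 := by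
    apply one_div_le_one_div_of_le <;> linarith
  -- multiples
  have hdU1 : ∀ j, θ + k < d * U j := fun j => by
    rw [← hx₀]
    exact mul_lt_mul_of_pos_left (hU1 j) hd0
  have hdU2 : ∀ j, (d : ℝ) * U j < θ + k + 1 := fun j => by
    have h := mul_lt_mul_of_pos_left (hU2 j) hd0
    rw [mul_add, hx₀, mul_one_div_cancel hd0.ne'] at h
    exact h
  have hsmall : ∀ n : ℤ, |(n : ℝ)| < 1 → n = 0 := fun n hn => by
    have : |n| < 1 := by exact_mod_cast hn
    exact Int.abs_lt_one_iff.1 this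
  have hUq : U q = U 0 := by
    obtain ⟨n, hn⟩ := hUn q
    obtain ⟨m, hm⟩ := hUn 0
    have h2 : ((n₀ + n - m : ℤ) : ℝ) = U q - U 0 := by
      rw [hn, hm, hn₀]
      push_cast
      ring
    have h3 := hsmall (n₀ + n - m) (by
      rw [h2, abs_lt]
      constructor
      · linarith [hU1 q, hU2 0]
      · linarith [hU2 q, hU1 0])
    rw [h3] at h2
    push_cast at h2
    linarith
  have hUne : ∀ j, U j ≠ θ := by
    intro j hj
    obtain ⟨n, hn⟩ := hUn j
    apply hper 0 q (by omega) ((d : ℤ) ^ j * n₀ + ((d : ℤ) ^ q - 1) * n)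
    rw [← hj, hn]
    push_cast
    linear_combination (d : ℝ) ^ j * hn₀
  have hstep : ∀ j, ∃ m : ℤ, U (j + 1) = d * U j - m := by
    intro j
    obtain ⟨n, hn⟩ := hUn j
    obtain ⟨m, hm⟩ := hUn (j + 1)
    refine ⟨d * n - m, ?_⟩
    rw [hn, hm]
    push_cast
    ring
  have hlow : (k : ℝ) < ((d : ℝ) - 1) * U 0 := by
    have h2 : (d : ℝ) * k < d * (((d : ℝ) - 1) * x₀) := by
      have : (d : ℝ) * (((d : ℝ) - 1) * x₀) = ((d : ℝ) - 1) * (θ + k) := by rw [← hx₀]; ring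
      rw [this]
      linarith
    have h3 := lt_of_mul_lt_mul_left h2 hd0.le
    have h4 : ((d : ℝ) - 1) * x₀ < ((d : ℝ) - 1) * U 0 :=
      mul_lt_mul_of_pos_left (hU1 0) (by linarith)
    linarith
  have hhigh : ((d : ℝ) - 1) * U 0 < k + 1 := by
    have h2 : d * (((d : ℝ) - 1) * (x₀ + 1 / d)) < (d : ℝ) * (k + 1) := by
      have : (d : ℝ) * (((d : ℝ) - 1) * (x₀ + 1 / d)) = ((d : ℝ) - 1) * (θ + k + 1) := by
        rw [← hx₀]
        field_simp
      rw [this]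
      linarith
    have h3 := lt_of_mul_lt_mul_left h2 hd0.le
    have h4 : ((d : ℝ) - 1) * U 0 < ((d : ℝ) - 1) * (x₀ + 1 / d) :=
      mul_lt_mul_of_pos_left (hU2 0) (by linarith)
    linarith
  refine ⟨x₀, a, q, ⟨k, hx₀⟩, hq, ⟨n₀, hn₀⟩, ?_, ?_, ?_, ?_⟩
  · intro j
    obtain ⟨n, hn⟩ := hUn j
    exact ⟨n, by rw [← hn]; exact ⟨hU1 j, hU2 j⟩⟩
  · by_contra hc
    push Not at hc
    have hgt : ∀ j, θ < U j := by
      intro j
      obtain ⟨n, hn⟩ := hUn j
      have h2 := hc j n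
      rw [← hn] at h2
      by_contra h3
      push Not at h3
      exact h2 ⟨hx1.trans (hU1 j), lt_of_le_of_ne h3 (hUne j)⟩
    have haff : ∀ j, U (j + 1) = d * U j - k := by
      intro j
      obtain ⟨m, hm⟩ := hstep j
      have h2 := hgt (j + 1)
      have h3 := hU2 (j + 1)
      have h4 := hdU1 j
      have h5 := hdU2 j
      have h6 : (m : ℝ) < k + 1 := by linarith
      have h7 : (k : ℝ) - 1 < m := by linarith
      have h8 : m = k := by
        have h6' : m < k + 1 := by exact_mod_cast h6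
        have h7' : k - 1 < m := by exact_mod_cast h7
        omega
      rw [hm, h8]
    have := fixed_of_affine hd hq haff hUq
    linarith
  · by_contra hc
    push Not at hc
    have hlt : ∀ j, U j < θ := by
      intro j
      obtain ⟨n, hn⟩ := hUn j
      have h2 := hc j (n - 1)
      have h3 : (d : ℝ) ^ j * a + ((n - 1 : ℤ) : ℝ) = U j - 1 := by
        rw [hn]
        push_cast
        ring
      rw [h3] at h2
      by_contra h4
      push Not at h4
      have h5 := lt_of_le_of_ne h4 (hUne j).symm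
      exact h2 ⟨by linarith, by linarith [hU2 j]⟩
    have haff : ∀ j, U (j + 1) = d * U j - (k + 1 : ℤ) := by
      intro j
      obtain ⟨m, hm⟩ := hstep j
      have h2 := hlt (j + 1)
      have h3 := hU1 (j + 1)
      have h4 := hdU1 j
      have h5 := hdU2 j
      have h6 : (m : ℝ) < k + 2 := by linarith
      have h7 : (k : ℝ) < m := by linarith
      have h8 : m = k + 1 := by
        have h6' : m < k + 2 := by exact_mod_cast h6
        have h7' : k < m := by exact_mod_cast h7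
        omega
      rw [hm, h8]
    have := fixed_of_affine hd hq haff hUq
    push_cast at this
    linarith
  · intro j n hjn
    obtain ⟨m, hm⟩ := hUn j
    have h2 : (d : ℝ) * ((d : ℝ) ^ j * a + n) < θ := by
      have := mul_lt_mul_of_pos_left hjn.2 hd0
      rwa [mul_div_cancel₀ _ hd0.ne'] at this
    have h3 : θ - 1 < (d : ℝ) * ((d : ℝ) ^ j * a + n) := by
      have := mul_lt_mul_of_pos_left hjn.1 hd0
      rwa [mul_div_cancel₀ _ hd0.ne'] at this
    have h4 := hdU1 j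
    have h5 := hdU2 j
    have h6 : (d : ℝ) * U j = d * ((d : ℝ) ^ j * a + n) + d * ((m : ℝ) - n) := by
      rw [hm]
      ring
    have h7 : (k : ℝ) < d * ((m : ℝ) - n) := by linarith
    have h8 : (d : ℝ) * ((m : ℝ) - n) < k + 2 := by linarith
    have h7' : k < d * (m - n) := by exact_mod_cast h7
    have h8' : (d : ℤ) * (m - n) < k + 2 := by exact_mod_cast h8
    have h9 : 0 < m - n := by
      by_contra h
      push Not at h
      nlinarith
    have h10 : (d : ℤ) ≤ d * (m - n) := by nlinarith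
    omega

end Pool.Agent.Y44.LC
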