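import Pool.Agent.Y298.LC.Stm
import Pool.Agent.Y44.LC.PerCore

set_option autoImplicit false

/-!
# A cycle of angles in one arc (project LC)
-/

namespace Pool.Agent.Y44.LC

theorem per : Pool.Agent.Y298.LC.S_PER :=
  fun d θ hd h0 h1 hper hclose => per_core d θ hd h0 h1 hper hclose

end Pool.Agent.Y44.LC
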